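import Mathlib

/-! Putting a copy of a design on every line of an affine space. -/

namespace Pool.Agent.W5h6.Additive

variable {F V : Type} [Field F] [AddCommGroup V] [Module F V]

/-- The line through `a` in direction `b`. -/
def line (F : Type) [Field F] {V : Type} [AddCommGroup V] [Module F V] (a b : V) : Set V :=
  Set.range (fun t : F => a + t • b)

theorem line_eq {a b p q : V} (hpq : p ≠ q) (hp : p ∈ line F a b) (hq : q ∈ line F a b) :
    line F a b = line F p (q - p) := by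
  obtain ⟨t1, rfl⟩ := hp
  obtain ⟨t2, rfl⟩ := hq
  have h12 : t2 - t1 ≠ 0 := by
    intro h
    apply hpq
    rw [sub_eq_zero] at h
    simp [h]
  have hd : a + t2 • b - (a + t1 • b) = (t2 - t1) • b := by
    rw [sub_smul]
    abel
  ext x
  constructor
  · rintro ⟨t, rfl⟩
    refine ⟨(t - t1) / (t2 - t1), ?_⟩
    simp only
    rw [hd, smul_smul, div_mul_cancel₀ _ h12, sub_smul]
    abel
  · rintro ⟨t, rfl⟩
    refine ⟨t1 + t * (t2 - t1), ?_⟩
    simp only
    rw [hd, smul_smul, add_smul]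
    abel

theorem lines_design [DecidableEq V] [DecidableEq F] (k : ℕ) (hk : ((k : ℕ) : F) = 0)
    (𝓓 : Set (Finset F))
    (hcard : ∀ B ∈ 𝓓, B.card = k) (hsum : ∀ B ∈ 𝓓, ∑ x ∈ B, x = 0)
    (huniq : ∀ x y : F, x ≠ y → ∃! B : Finset F, B ∈ 𝓓 ∧ x ∈ B ∧ y ∈ B) :
    ∃ 𝓑 : Set (Finset V), (∀ B ∈ 𝓑, B.card = k) ∧ (∀ B ∈ 𝓑, ∑ x ∈ B, x = 0) ∧
      ∀ x y : V, x ≠ y → ∃! B : Finset V, B ∈ 𝓑 ∧ x ∈ B ∧ y ∈ B := by
  have hch : ∀ L : Set V, ∃ c : V × V, (∃ a b : V, b ≠ 0 ∧ L = line F a b) →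
      c.2 ≠ 0 ∧ L = line F c.1 c.2 := by
    intro L
    by_cases h : ∃ a b : V, b ≠ 0 ∧ L = line F a b
    · obtain ⟨a, b, h⟩ := h
      exact ⟨(a, b), fun _ => h⟩
    · exact ⟨(0, 0), fun h' => absurd h' h⟩
  choose c hc using hch
  have hinj : ∀ a b : V, b ≠ 0 → Function.Injective (fun t : F => a + t • b) := by
    intro a b hb s t hst
    simp only [add_right_inj] at hst
    have : (s - t) • b = 0 := by rw [sub_smul, hst, sub_self]
    rcases smul_eq_zero.mp this with h | h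
    · exact sub_eq_zero.mp h
    · exact absurd h hb
  refine ⟨{B | ∃ L : Set V, (∃ a b : V, b ≠ 0 ∧ L = line F a b) ∧ ∃ D ∈ 𝓓,
    B = D.image (fun t => (c L).1 + t • (c L).2)}, ?_, ?_, ?_⟩
  · rintro B ⟨L, hL, D, hD, rfl⟩
    rw [Finset.card_image_of_injective _ (hinj _ _ (hc L hL).1), hcard D hD]
  · rintro B ⟨L, hL, D, hD, rfl⟩
    rw [Finset.sum_image (fun a _ b _ hab => hinj _ _ (hc L hL).1 hab), Finset.sum_add_distrib,
      ← Finset.sum_smul, hsum D hD, zero_smul, add_zero, Finset.sum_const, hcard D hD,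
      ← Nat.cast_smul_eq_nsmul F, hk, zero_smul]
  · intro p q hpq
    have hd : q - p ≠ 0 := sub_ne_zero.mpr hpq.symm
    have hL : ∃ a b : V, b ≠ 0 ∧ line F p (q - p) = line F a b := ⟨p, q - p, hd, rfl⟩
    obtain ⟨h1, h2⟩ := hc _ hL
    have hpL : p ∈ line F (c (line F p (q - p))).1 (c (line F p (q - p))).2 := by
      rw [← h2]
      exact ⟨0, by simp⟩
    have hqL : q ∈ line F (c (line F p (q - p))).1 (c (line F p (q - p))).2 := by
      rw [← h2]
      exact ⟨1, by simp⟩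
    obtain ⟨s, hs⟩ := hpL
    obtain ⟨t, ht⟩ := hqL
    simp only at hs ht
    have hst : s ≠ t := by
      rintro rfl
      exact hpq (hs.symm.trans ht)
    obtain ⟨D, ⟨hD, hsD, htD⟩, hDu⟩ := huniq s t hst
    refine ⟨D.image (fun t => (c (line F p (q - p))).1 + t • (c (line F p (q - p))).2),
      ⟨⟨_, hL, D, hD, rfl⟩, Finset.mem_image.mpr ⟨s, hsD, hs⟩,
        Finset.mem_image.mpr ⟨t, htD, ht⟩⟩, ?_⟩
    rintro B ⟨⟨L, hL', D', hD', rfl⟩, hpB, hqB⟩
    have hLc := hc L hL'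
    obtain ⟨s', hs', hps⟩ := Finset.mem_image.mp hpB
    obtain ⟨t', ht', hqt⟩ := Finset.mem_image.mp hqB
    have hLe : L = line F p (q - p) := by
      rw [hLc.2]
      apply line_eq hpq
      · exact ⟨s', hps⟩
      · exact ⟨t', hqt⟩
    subst hLe
    have e1 : s' = s := hinj _ _ h1 (hps.trans hs.symm)
    have e2 : t' = t := hinj _ _ h1 (hqt.trans ht.symm)
    subst e1 e2
    rw [hDu D' ⟨hD', hs', ht'⟩]

end Pool.Agent.W5h6.Additive
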