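import Pool.Agent.W5h6.Additive.Data

/-! Kernel check of the table: every point `s ≠ 0` lies on a 5-cycle of `nx`, the five points of
the cycle add up to zero, and the translate by `s⁻¹` of the block of `s` is the block of `s⁻¹`. -/

namespace Pool.Agent.W5h6.Additive

/-- Code of the additive inverse. -/
def negN (s : ℕ) : ℕ :=
  (2 * s) % 3 + 3 * ((2 * (s / 3)) % 3) + 9 * ((2 * (s / 9)) % 3) + 27 * ((2 * (s / 27)) % 3)
    + 81 * ((2 * (s / 81)) % 3) + 243 * ((2 * (s / 243)) % 3) + 729 * ((2 * (s / 729)) % 3)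
    + 2187 * ((2 * (s / 2187)) % 3)

/-- Code of the product `p * q` in the regular group. -/
def mulN (p q : ℕ) : ℕ :=
  (p + q) % 3 + 3 * ((p / 3 + q / 3) % 3) + 9 * ((p / 9 + q / 9) % 3)
    + 27 * ((p / 27 + q / 27) % 3)
    + 81 * ((p / 81 + q / 81 + p * (q / 3) + 2 * (p / 3 * q)) % 3)
    + 243 * ((p / 243 + q / 243 + p * (q / 9) + p / 3 * (q / 27) + 2 * (p / 9 * q)
        + 2 * (p / 27 * (q / 3))) % 3)
    + 729 * ((p / 729 + q / 729 + p / 3 * (q / 9) + 2 * (p * (q / 27)) + 2 * (p / 9 * (q / 3))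
        + p / 27 * q) % 3)
    + 2187 * ((p / 2187 + q / 2187 + p / 9 * (q / 27) + 2 * (p / 27 * (q / 9))) % 3)

/-- Digit sum test at place `k`. -/
def dz (k a b c d e : ℕ) : Bool := Nat.beq ((a / k + b / k + c / k + d / k + e / k) % 3) 0

/-- The five points with these codes add up to zero. -/
def zs (a b c d e : ℕ) : Bool :=
  dz 1 a b c d e && dz 3 a b c d e && dz 9 a b c d e && dz 27 a b c d e && dz 81 a b c d e
   && dz 243 a b c d e && dz 729 a b c d e && dz 2187 a b c d e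

/-- Membership in a set of four. -/
def mem4 (x a b c d : ℕ) : Bool := Nat.beq x a || Nat.beq x b || Nat.beq x c || Nat.beq x d

/-- Evaluate the first argument before going on. -/
def force (n : ℕ) (k : ℕ → Bool) : Bool := Nat.casesOn n (k 0) (fun m => k (Nat.succ m))

/-- The closure test. -/
def chk3 (t s1 s2 s3 s4 t1 t2 t3 t4 : ℕ) : Bool :=
  mem4 (mulN t s1) t1 t2 t3 t4 && mem4 (mulN t s2) t1 t2 t3 t4
   && mem4 (mulN t s3) t1 t2 t3 t4 && mem4 (mulN t s4) t1 t2 t3 t4

/-- The closure test, looking up the cycle of `t`. -/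
def chk2 (s1 s2 s3 s4 t : ℕ) : Bool :=
  force (nx t) fun t1 => force (nx t1) fun t2 => force (nx t2) fun t3 => force (nx t3) fun t4 =>
    chk3 t s1 s2 s3 s4 t1 t2 t3 t4

/-- Pairwise different. -/
def nd5 (a b c d e : ℕ) : Bool :=
  !(Nat.beq a b) && !(Nat.beq a c) && !(Nat.beq a d) && !(Nat.beq a e) && !(Nat.beq b c)
   && !(Nat.beq b d) && !(Nat.beq b e) && !(Nat.beq c d) && !(Nat.beq c e) && !(Nat.beq d e)

/-- The full test at `s`. -/
def chk (s : ℕ) : Bool :=
  force (nx s) fun s1 => force (nx s1) fun s2 => force (nx s2) fun s3 => force (nx s3) fun s4 =>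
    Nat.ble s1 6560 && Nat.ble 1 s1 && Nat.beq (nx s4) s && nd5 s s1 s2 s3 s4
      && zs s s1 s2 s3 s4 && force (negN s) fun t => chk2 s1 s2 s3 s4 t

/-- The test on `[lo, lo + 2 ^ k)`, restricted to the codes `1, ..., 6560`. -/
def chkAll : ℕ → ℕ → Bool
  | 0, lo => (Nat.ble 6561 lo || Nat.beq lo 0) || chk lo
  | k + 1, lo => chkAll k lo && chkAll k (lo + 2 ^ k)

theorem chkAll_true : chkAll 13 0 = true := by decide +kernel

end Pool.Agent.W5h6.Additive
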