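import Mathlib

/-! Abstract part: a regular design from a closed family of blocks through the identity. -/

namespace Pool.Agent.W5h6.Additive

theorem family {R : Type} [Group R] [DecidableEq R] (N : R → Finset R)
    (h1 : ∀ s, s ≠ 1 → (1 : R) ∈ N s) (h1' : ∀ s, s ≠ 1 → s ∈ N s)
    (h2 : ∀ s, s ≠ 1 → ∀ t ∈ N s, t ≠ 1 → N t = N s)
    (h3 : ∀ s, s ≠ 1 → (N s).image (fun x => s⁻¹ * x) = N s⁻¹) (p q : R) (hpq : p ≠ q) :
    ∃! b : Finset R, (∃ g s, s ≠ 1 ∧ b = (N s).image (fun x => g * x)) ∧ p ∈ b ∧ q ∈ b := by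
  have hu : p⁻¹ * q ≠ 1 := by
    intro h
    exact hpq (inv_mul_eq_one.mp h)
  refine ⟨(N (p⁻¹ * q)).image (fun x => p * x), ⟨⟨p, _, hu, rfl⟩, ?_, ?_⟩, ?_⟩
  · exact Finset.mem_image.mpr ⟨1, h1 _ hu, mul_one p⟩
  · exact Finset.mem_image.mpr ⟨p⁻¹ * q, h1' _ hu, by simp⟩
  · rintro b ⟨⟨g, s, hs, rfl⟩, hp, hq⟩
    obtain ⟨x, hx, hxp⟩ := Finset.mem_image.mp hp
    obtain ⟨y, hy, hyq⟩ := Finset.mem_image.mp hq
    by_cases hx1 : x = 1
    · subst hx1
      rw [mul_one] at hxp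
      subst hxp
      have : g⁻¹ * q = y := by rw [← hyq]; group
      rw [this] at hu ⊢
      rw [h2 s hs y hy hu]
    · have e1 : N x = N s := h2 s hs x hx hx1
      have e2 := h3 x hx1
      rw [e1] at e2
      have hu' : p⁻¹ * q = x⁻¹ * y := by rw [← hxp, ← hyq]; group
      have hmem : p⁻¹ * q ∈ N x⁻¹ := by
        rw [← e2, hu']
        exact Finset.mem_image.mpr ⟨y, hy, rfl⟩
      have hxi : x⁻¹ ≠ 1 := by simpa using hx1
      have e3 := h2 _ hxi _ hmem hu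
      rw [e3, ← e2, Finset.image_image]
      congr 1
      funext z
      simp only [Function.comp]
      rw [← hxp]
      group

end Pool.Agent.W5h6.Additive
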