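import Pool.Agent.W5h6.Additive.Chk
import Pool.Agent.W5h6.Additive.Family

/-! The concrete design on `(ZMod 3)^8`. -/

namespace Pool.Agent.W5h6.Additive

/-- Point with a given code. -/
def dec (n : ℕ) : Fin 8 → ZMod 3 := fun i => ((n / 3 ^ (i : ℕ) : ℕ) : ZMod 3)

/-- The (non-additive) regular group operation. -/
def mul (g h : Fin 8 → ZMod 3) : Fin 8 → ZMod 3 :=
  ![g 0 + h 0, g 1 + h 1, g 2 + h 2, g 3 + h 3,
    g 4 + h 4 + (g 0 * h 1 - g 1 * h 0),
    g 5 + h 5 + (g 0 * h 2 + g 1 * h 3 - g 2 * h 0 - g 3 * h 1),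
    g 6 + h 6 + (g 1 * h 2 - g 0 * h 3 - g 2 * h 1 + g 3 * h 0),
    g 7 + h 7 + (g 2 * h 3 - g 3 * h 2)]

/-- The regular group. -/
def R : Type := Fin 8 → ZMod 3

instance : DecidableEq R := inferInstanceAs (DecidableEq (Fin 8 → ZMod 3))

theorem mul_assoc' (a b c : Fin 8 → ZMod 3) : mul (mul a b) c = mul a (mul b c) := by
  funext i
  fin_cases i <;> simp [mul] <;> ring

theorem zero_mul' (a : Fin 8 → ZMod 3) : mul 0 a = a := by
  funext i
  fin_cases i <;> simp [mul]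

theorem neg_mul_self' (a : Fin 8 → ZMod 3) : mul (-a) a = 0 := by
  funext i
  fin_cases i <;> simp [mul] <;> ring

/-- Negation, as a plain function. -/
def ng (a : Fin 8 → ZMod 3) : Fin 8 → ZMod 3 := -a

/-- Zero, as a plain constant. -/
def zr : Fin 8 → ZMod 3 := 0

instance : Group R :=
  @Group.ofLeftAxioms R ⟨fun a b => mul a b⟩ ⟨fun a => ng a⟩ ⟨zr⟩
    mul_assoc' zero_mul' neg_mul_self'

theorem R_mul (a b : R) : a * b = mul a b := rfl
theorem R_inv (a : R) : a⁻¹ = ng a := rfl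
theorem R_one : (1 : R) = zr := rfl

/-- Codes of points. -/
def enc (g : Fin 8 → ZMod 3) : ℕ :=
  (g 0).val + 3 * (g 1).val + 9 * (g 2).val + 27 * (g 3).val + 81 * (g 4).val
    + 243 * (g 5).val + 729 * (g 6).val + 2187 * (g 7).val

theorem enc_lt (g : Fin 8 → ZMod 3) : enc g < 6561 := by
  have h : ∀ i, (g i).val < 3 := fun i => ZMod.val_lt (g i)
  have := h 0; have := h 1; have := h 2; have := h 3; have := h 4; have := h 5; have := h 6
  have := h 7
  unfold enc
  omega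

theorem cast_eq {a b : ℕ} (h : a % 3 = b % 3) : ((a : ℕ) : ZMod 3) = (b : ZMod 3) := by
  rw [← ZMod.natCast_mod a 3, h, ZMod.natCast_mod]

theorem dec_enc (g : Fin 8 → ZMod 3) : dec (enc g) = g := by
  have h : ∀ i, (g i).val < 3 := fun i => ZMod.val_lt (g i)
  have h0 := h 0; have h1 := h 1; have h2 := h 2; have h3 := h 3; have h4 := h 4
  have h5 := h 5; have h6 := h 6; have h7 := h 7
  funext i
  have key : ∀ j : Fin 8, (enc g / 3 ^ (j : ℕ)) % 3 = (g j).val % 3 := by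
    intro j
    fin_cases j <;> simp [enc] <;> omega
  show ((enc g / 3 ^ (i : ℕ) : ℕ) : ZMod 3) = g i
  rw [cast_eq (key i)]
  simp

theorem dec_val (n : ℕ) (i : Fin 8) : (dec n i).val = n / 3 ^ (i : ℕ) % 3 := by
  show (((n / 3 ^ (i : ℕ) : ℕ) : ZMod 3)).val = _
  rw [ZMod.val_natCast]

theorem enc_dec {n : ℕ} (hn : n < 6561) : enc (dec n) = n := by
  unfold enc
  rw [dec_val, dec_val, dec_val, dec_val, dec_val, dec_val, dec_val, dec_val]
  simp
  omega

theorem dec_inj {m n : ℕ} (hm : m < 6561) (hn : n < 6561) (h : dec m = dec n) : m = n := by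
  rw [← enc_dec hm, ← enc_dec hn, h]

end Pool.Agent.W5h6.Additive
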