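import Pool.Agent.W5h6.Additive.Main

/-! The concrete design on `(ZMod 3)^8`, continued. -/

namespace Pool.Agent.W5h6.Additive

/-- Successor on nonzero points. -/
def f (g : Fin 8 → ZMod 3) : Fin 8 → ZMod 3 := dec (nx (enc g))

theorem dec_zero : dec 0 = 0 := by
  funext i
  simp [dec]

theorem enc_ne {g : Fin 8 → ZMod 3} (h : g ≠ 0) : enc g ≠ 0 := by
  intro h'
  apply h
  rw [← dec_enc g, h', dec_zero]

theorem nx_lt {s : ℕ} (h0 : s ≠ 0) (h : s < 6561) : nx s < 6561 := by
  have := (good h0 h).le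
  omega

theorem nx_ne {s : ℕ} (h0 : s ≠ 0) (h : s < 6561) : nx s ≠ 0 := by
  have := (good h0 h).ge
  omega

theorem f_dec {n : ℕ} (h : n < 6561) : f (dec n) = dec (nx n) := by
  unfold f
  rw [enc_dec h]

theorem dec_ne {n : ℕ} (h0 : n ≠ 0) (h : n < 6561) : dec n ≠ 0 := by
  intro h'
  rw [← dec_zero] at h'
  exact h0 (dec_inj h (by norm_num) h')

/-- The block through `0` and `s`. -/
def N (s : Fin 8 → ZMod 3) : Finset (Fin 8 → ZMod 3) :=
  {0, s, f s, f (f s), f (f (f s)), f (f (f (f s)))}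

/-- The situation for one nonzero point. -/
structure GoodG (s : Fin 8 → ZMod 3) : Prop where
  ne1 : f s ≠ 0
  ne2 : f (f s) ≠ 0
  ne3 : f (f (f s)) ≠ 0
  ne4 : f (f (f (f s))) ≠ 0
  per : f (f (f (f (f s)))) = s
  card : (N s).card = 6
  sum : ∑ x ∈ N s, x = 0
  clo : (N s).image (fun x => mul (-s) x) = N (-s)

theorem mul_inj (a b c : Fin 8 → ZMod 3) (h : mul a b = mul a c) : b = c := by
  have h' : mul (-a) (mul a b) = mul (-a) (mul a c) := by rw [h]
  rwa [← mul_assoc', ← mul_assoc', neg_mul_self', zero_mul', zero_mul'] at h'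

theorem mul_zero' (a : Fin 8 → ZMod 3) : mul a 0 = a := by
  funext i
  fin_cases i <;> simp [mul]

theorem nodup6 {a b c d e : Fin 8 → ZMod 3} (h : [0, a, b, c, d, e].Nodup) :
    ({0, a, b, c, d, e} : Finset (Fin 8 → ZMod 3)).card = 6 ∧
    ∑ x ∈ ({0, a, b, c, d, e} : Finset (Fin 8 → ZMod 3)), x = a + b + c + d + e := by
  have e1 : ({0, a, b, c, d, e} : Finset (Fin 8 → ZMod 3)) = [0, a, b, c, d, e].toFinset := by
    simp
  rw [e1]
  constructor
  · rw [List.toFinset_card_of_nodup h]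
    rfl
  · rw [List.sum_toFinset _ h]
    simp [add_assoc]

theorem goodG_dec {s : ℕ} (h0 : s ≠ 0) (h : s < 6561) : (N (dec s)).card = 6 ∧
    ∑ x ∈ N (dec s), x = 0 := by
  have g := good h0 h
  have l1 := nx_lt h0 h
  have z1 := nx_ne h0 h
  have l2 := nx_lt z1 l1
  have z2 := nx_ne z1 l1
  have l3 := nx_lt z2 l2
  have z3 := nx_ne z2 l2
  have l4 := nx_lt z3 l3
  have z4 := nx_ne z3 l3
  have hN : N (dec s) = {0, dec s, dec (nx s), dec (nx (nx s)), dec (nx (nx (nx s))),
      dec (nx (nx (nx (nx s))))} := by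
    unfold N
    rw [f_dec h, f_dec l1, f_dec l2, f_dec l3]
  have hnd : [0, dec s, dec (nx s), dec (nx (nx s)), dec (nx (nx (nx s))),
      dec (nx (nx (nx (nx s))))].Nodup := by
    rw [← dec_zero]
    have hn : [0, s, nx s, nx (nx s), nx (nx (nx s)), nx (nx (nx (nx s)))].Nodup := by
      refine List.nodup_cons.mpr ⟨?_, g.nd⟩
      simp only [List.mem_cons, List.not_mem_nil, or_false, not_or]
      exact ⟨h0.symm, z1.symm, z2.symm, z3.symm, z4.symm⟩
    have := List.Nodup.map_on (f := dec) (l := [0, s, nx s, nx (nx s), nx (nx (nx s)),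
      nx (nx (nx (nx s)))]) ?_ hn
    · simpa using this
    · intro x hx y hy hxy
      apply dec_inj _ _ hxy
      · simp only [List.mem_cons, List.not_mem_nil, or_false] at hx
        rcases hx with rfl | rfl | rfl | rfl | rfl | rfl <;> first | assumption | norm_num
      · simp only [List.mem_cons, List.not_mem_nil, or_false] at hy
        rcases hy with rfl | rfl | rfl | rfl | rfl | rfl <;> first | assumption | norm_num
  rw [hN]
  have := nodup6 hnd
  refine ⟨this.1, ?_⟩
  rw [this.2]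
  exact g.sum

theorem goodG {s : Fin 8 → ZMod 3} (hs : s ≠ 0) : GoodG s := by
  obtain ⟨n, hn0, hn, rfl⟩ : ∃ n, n ≠ 0 ∧ n < 6561 ∧ dec n = s :=
    ⟨enc s, enc_ne hs, enc_lt s, dec_enc s⟩
  have g := good hn0 hn
  have l1 := nx_lt hn0 hn
  have z1 := nx_ne hn0 hn
  have l2 := nx_lt z1 l1
  have z2 := nx_ne z1 l1
  have l3 := nx_lt z2 l2
  have z3 := nx_ne z2 l2
  have l4 := nx_lt z3 l3
  have z4 := nx_ne z3 l3
  have hc := goodG_dec hn0 hn
  refine ⟨?_, ?_, ?_, ?_, ?_, hc.1, hc.2, ?_⟩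
  · rw [f_dec hn]; exact dec_ne z1 l1
  · rw [f_dec hn, f_dec l1]; exact dec_ne z2 l2
  · rw [f_dec hn, f_dec l1, f_dec l2]; exact dec_ne z3 l3
  · rw [f_dec hn, f_dec l1, f_dec l2, f_dec l3]; exact dec_ne z4 l4
  · rw [f_dec hn, f_dec l1, f_dec l2, f_dec l3, f_dec l4, g.per]
  · -- closure
    have hm : (-dec n : Fin 8 → ZMod 3) ≠ 0 := by simpa using hs
    obtain ⟨m, hm0, hml, hme⟩ : ∃ m, m ≠ 0 ∧ m < 6561 ∧ dec m = -dec n :=
      ⟨enc (-dec n), enc_ne hm, enc_lt _, dec_enc _⟩
    have hmn : m = negN n := by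
      have h1 : negN n < 6561 := by
        unfold negN
        omega
      apply dec_inj hml h1
      rw [hme, dec_negN]
    have gm := goodG_dec hm0 hml
    have k1 := nx_lt hm0 hml
    have y1 := nx_ne hm0 hml
    have k2 := nx_lt y1 k1
    have y2 := nx_ne y1 k1
    have k3 := nx_lt y2 k2
    have hNm : N (dec m) = {0, dec m, dec (nx m), dec (nx (nx m)), dec (nx (nx (nx m))),
        dec (nx (nx (nx (nx m))))} := by
      unfold N
      rw [f_dec hml, f_dec k1, f_dec k2, f_dec k3]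
    have hNn : N (dec n) = {0, dec n, dec (nx n), dec (nx (nx n)), dec (nx (nx (nx n))),
        dec (nx (nx (nx (nx n))))} := by
      unfold N
      rw [f_dec hn, f_dec l1, f_dec l2, f_dec l3]
    rw [← hme]
    apply Finset.eq_of_subset_of_card_le
    · intro x hx
      obtain ⟨y, hy, rfl⟩ := Finset.mem_image.mp hx
      have hcl : ∀ z ∈ [nx n, nx (nx n), nx (nx (nx n)), nx (nx (nx (nx n)))],
          mul (dec m) (dec z) ∈ N (dec m) := by
        intro z hz
        have := g.clo z hz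
        rw [← dec_mulN, hNm]
        rw [← hmn] at this
        simp only [List.mem_cons, List.not_mem_nil, or_false] at this
        simp only [Finset.mem_insert, Finset.mem_singleton]
        rcases this with h | h | h | h <;> rw [h] <;> simp
      rw [hNn] at hy
      simp only [Finset.mem_insert, Finset.mem_singleton] at hy
      rcases hy with rfl | rfl | rfl | rfl | rfl | rfl
      · rw [mul_zero', hNm]
        simp
      · rw [hme, neg_mul_self', ← hme, hNm]
        simp
      · exact hcl _ (by simp)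
      · exact hcl _ (by simp)
      · exact hcl _ (by simp)
      · exact hcl _ (by simp)
    · rw [gm.1, Finset.card_image_of_injective _ (fun a b hab => mul_inj _ _ _ hab), hc.1]

theorem N_f {s : Fin 8 → ZMod 3} (hs : s ≠ 0) : N (f s) = N s := by
  have g := goodG hs
  unfold N
  rw [g.per]
  ext x
  simp only [Finset.mem_insert, Finset.mem_singleton]
  tauto

theorem N_mem {s : Fin 8 → ZMod 3} (hs : s ≠ 0) {t : Fin 8 → ZMod 3} (ht : t ∈ N s)
    (ht0 : t ≠ 0) : N t = N s := by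
  have g := goodG hs
  unfold N at ht
  simp only [Finset.mem_insert, Finset.mem_singleton] at ht
  rcases ht with rfl | rfl | rfl | rfl | rfl | rfl
  · exact absurd rfl ht0
  · rfl
  · exact N_f hs
  · rw [N_f g.ne1, N_f hs]
  · rw [N_f g.ne2, N_f g.ne1, N_f hs]
  · rw [N_f g.ne3, N_f g.ne2, N_f g.ne1, N_f hs]

/-- The set of blocks. -/
def blocks : Set (Finset (Fin 8 → ZMod 3)) :=
  {b | ∃ g s : Fin 8 → ZMod 3, s ≠ 0 ∧ b = (N s).image (fun x => mul g x)}

theorem zero_mem_N (s : Fin 8 → ZMod 3) : (0 : Fin 8 → ZMod 3) ∈ N s := by simp [N]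

theorem self_mem_N (s : Fin 8 → ZMod 3) : s ∈ N s := by simp [N]

theorem blocks_unique (p q : Fin 8 → ZMod 3) (hpq : p ≠ q) :
    ∃! b : Finset (Fin 8 → ZMod 3), b ∈ blocks ∧ p ∈ b ∧ q ∈ b := by
  have := family (R := R) (N := fun s => N s)
    (fun s _ => zero_mem_N s) (fun s _ => self_mem_N s)
    (fun s hs t ht ht1 => N_mem (s := s) hs ht ht1)
    (fun s hs => (goodG (s := s) hs).clo) p q hpq
  exact this

theorem blocks_card {b : Finset (Fin 8 → ZMod 3)} (hb : b ∈ blocks) : b.card = 6 := by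
  obtain ⟨g, s, hs, rfl⟩ := hb
  rw [Finset.card_image_of_injective _ (fun a b hab => mul_inj _ _ _ hab), (goodG hs).card]

/-- The additive part of left multiplication. -/
def lin (g : Fin 8 → ZMod 3) : (Fin 8 → ZMod 3) →+ (Fin 8 → ZMod 3) :=
  AddMonoidHom.mk' (fun x => ![x 0, x 1, x 2, x 3,
    x 4 + (g 0 * x 1 - g 1 * x 0),
    x 5 + (g 0 * x 2 + g 1 * x 3 - g 2 * x 0 - g 3 * x 1),
    x 6 + (g 1 * x 2 - g 0 * x 3 - g 2 * x 1 + g 3 * x 0),
    x 7 + (g 2 * x 3 - g 3 * x 2)]) (by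
    intro a b
    funext i
    fin_cases i <;> simp <;> ring)

theorem blocks_sum {b : Finset (Fin 8 → ZMod 3)} (hb : b ∈ blocks) : ∑ x ∈ b, x = 0 := by
  obtain ⟨g, s, hs, rfl⟩ := hb
  rw [Finset.sum_image (fun a _ b _ hab => mul_inj _ _ _ hab)]
  have h1 : ∀ x, mul g x = g + lin g x := by
    intro x
    funext i
    fin_cases i <;> simp [lin, mul] <;> ring
  have h2 : ∑ x ∈ N s, mul g x = (N s).card • g + lin g (∑ x ∈ N s, x) := by
    rw [map_sum, ← Finset.sum_const, ← Finset.sum_add_distrib]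
    exact Finset.sum_congr rfl (fun x _ => h1 x)
  rw [h2, (goodG hs).card, (goodG hs).sum, map_zero, add_zero]
  funext i
  have : (6 : ZMod 3) = 0 := rfl
  simp [this]

end Pool.Agent.W5h6.Additive
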