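import Pool.Agent.W5h6.Additive.Core

/-! The concrete design on `(ZMod 3)^8`, continued. -/

namespace Pool.Agent.W5h6.Additive

theorem dig {d0 d1 d2 d3 d4 d5 d6 d7 : ℕ} (h0 : d0 < 3) (h1 : d1 < 3) (h2 : d2 < 3)
    (h3 : d3 < 3) (h4 : d4 < 3) (h5 : d5 < 3) (h6 : d6 < 3) :
    dec (d0 + 3 * d1 + 9 * d2 + 27 * d3 + 81 * d4 + 243 * d5 + 729 * d6 + 2187 * d7)
      = ![(d0 : ZMod 3), d1, d2, d3, d4, d5, d6, d7] := by
  funext i
  fin_cases i <;> (apply cast_eq; simp; omega)

theorem ml (a : ℕ) : a % 3 < 3 := Nat.mod_lt _ (by norm_num)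

theorem three_eq : (3 : ZMod 3) = 0 := rfl

theorem dec_negN (s : ℕ) : dec (negN s) = - dec s := by
  unfold negN
  rw [dig (ml _) (ml _) (ml _) (ml _) (ml _) (ml _) (ml _)]
  funext i
  have h3 := three_eq
  have key : ∀ x : ZMod 3, 2 * x = -x := by
    intro x
    linear_combination x * h3
  fin_cases i <;> simp [dec, ZMod.natCast_mod, key]

theorem dec_mulN (p q : ℕ) : dec (mulN p q) = mul (dec p) (dec q) := by
  unfold mulN
  rw [dig (ml _) (ml _) (ml _) (ml _) (ml _) (ml _) (ml _)]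
  funext i
  have h3 := three_eq
  have key : ∀ x : ZMod 3, 2 * x = -x := by
    intro x
    linear_combination x * h3
  fin_cases i <;> simp [dec, mul, ZMod.natCast_mod, key] <;> ring

theorem chk_lt {k lo : ℕ} (h : chkAll k lo = true) :
    ∀ s, lo ≤ s → s < lo + 2 ^ k → s ≠ 0 → s < 6561 → chk s = true := by
  induction k generalizing lo with
  | zero =>
    intro s h1 h2 h3 h4
    have : s = lo := by simp at h2; omega
    subst this
    unfold chkAll at h
    have a1 : Nat.ble 6561 s = false := by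
      cases hh : Nat.ble 6561 s
      · rfl
      · exact absurd (Nat.le_of_ble_eq_true hh) (by omega)
    have a2 : Nat.beq s 0 = false := by
      cases hh : Nat.beq s 0
      · rfl
      · exact absurd (Nat.eq_of_beq_eq_true hh) h3
    rw [a1, a2] at h
    simpa using h
  | succ k ih =>
    intro s h1 h2 h3 h4
    unfold chkAll at h
    rw [Bool.and_eq_true] at h
    by_cases hs : s < lo + 2 ^ k
    · exact ih h.1 s h1 hs h3 h4
    · refine ih h.2 s (by omega) ?_ h3 h4
      rw [pow_succ] at h2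
      omega

theorem chk_of {s : ℕ} (h0 : s ≠ 0) (h : s < 6561) : chk s = true :=
  chk_lt chkAll_true s (Nat.zero_le _) (by norm_num; omega) h0 h

theorem force_eq (n : ℕ) (k : ℕ → Bool) : force n k = k n := by
  cases n <;> rfl

theorem beq_ne {a b : ℕ} (h : (!(Nat.beq a b)) = true) : a ≠ b := by
  intro hab
  subst hab
  simp at h

theorem mem4_iff {x a b c d : ℕ} (h : mem4 x a b c d = true) : x = a ∨ x = b ∨ x = c ∨ x = d := by
  unfold mem4 at h
  simp only [Bool.or_eq_true] at h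
  rcases h with ((h | h) | h) | h
  · exact Or.inl (Nat.eq_of_beq_eq_true h)
  · exact Or.inr (Or.inl (Nat.eq_of_beq_eq_true h))
  · exact Or.inr (Or.inr (Or.inl (Nat.eq_of_beq_eq_true h)))
  · exact Or.inr (Or.inr (Or.inr (Nat.eq_of_beq_eq_true h)))

/-- Everything the check tells about one code. -/
structure Good (s : ℕ) : Prop where
  le : nx s ≤ 6560
  ge : 1 ≤ nx s
  per : nx (nx (nx (nx (nx s)))) = s
  nd : [s, nx s, nx (nx s), nx (nx (nx s)), nx (nx (nx (nx s)))].Nodup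
  sum : dec s + dec (nx s) + dec (nx (nx s)) + dec (nx (nx (nx s)))
    + dec (nx (nx (nx (nx s)))) = 0
  clo : ∀ x ∈ [nx s, nx (nx s), nx (nx (nx s)), nx (nx (nx (nx s)))],
    mulN (negN s) x ∈ [nx (negN s), nx (nx (negN s)), nx (nx (nx (negN s))),
      nx (nx (nx (nx (negN s))))]

theorem dz_eq {k a b c d e : ℕ} (h : dz k a b c d e = true) :
    ((a / k : ℕ) : ZMod 3) + ((b / k : ℕ) : ZMod 3) + ((c / k : ℕ) : ZMod 3)
      + ((d / k : ℕ) : ZMod 3) + ((e / k : ℕ) : ZMod 3) = 0 := by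
  unfold dz at h
  have h := Nat.eq_of_beq_eq_true h
  have := (ZMod.natCast_eq_zero_iff (a / k + b / k + c / k + d / k + e / k) 3).mpr
    (Nat.dvd_of_mod_eq_zero h)
  push_cast at this
  exact this

theorem good {s : ℕ} (h0 : s ≠ 0) (h : s < 6561) : Good s := by
  have hc := chk_of h0 h
  unfold chk at hc
  simp only [force_eq, Bool.and_eq_true, chk2, chk3] at hc
  obtain ⟨⟨⟨⟨⟨c1, c2⟩, c3⟩, c4⟩, c5⟩, ⟨⟨c6, c7⟩, c8⟩, c9⟩ := hc
  unfold nd5 at c4
  simp only [Bool.and_eq_true] at c4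
  unfold zs at c5
  simp only [Bool.and_eq_true] at c5
  refine ⟨Nat.le_of_ble_eq_true c1, Nat.le_of_ble_eq_true c2, Nat.eq_of_beq_eq_true c3, ?_, ?_, ?_⟩
  · obtain ⟨⟨⟨⟨⟨⟨⟨⟨⟨a1, a2⟩, a3⟩, a4⟩, a5⟩, a6⟩, a7⟩, a8⟩, a9⟩, a10⟩ := c4
    have := beq_ne a1; have := beq_ne a2; have := beq_ne a3; have := beq_ne a4
    have := beq_ne a5; have := beq_ne a6; have := beq_ne a7; have := beq_ne a8
    have := beq_ne a9; have := beq_ne a10
    simp only [List.nodup_cons, List.mem_cons, List.not_mem_nil, or_false, not_or,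
      List.nodup_nil, and_true, not_false_eq_true]
    tauto
  · obtain ⟨⟨⟨⟨⟨⟨⟨b0, b1⟩, b2⟩, b3⟩, b4⟩, b5⟩, b6⟩, b7⟩ := c5
    funext i
    fin_cases i
    · simpa [dec] using dz_eq b0
    · simpa [dec] using dz_eq b1
    · simpa [dec] using dz_eq b2
    · simpa [dec] using dz_eq b3
    · simpa [dec] using dz_eq b4
    · simpa [dec] using dz_eq b5
    · simpa [dec] using dz_eq b6
    · simpa [dec] using dz_eq b7
  · intro x hx
    simp only [List.mem_cons, List.not_mem_nil, or_false] at hx ⊢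
    rcases hx with rfl | rfl | rfl | rfl
    · exact mem4_iff c6
    · exact mem4_iff c7
    · exact mem4_iff c8
    · exact mem4_iff c9

end Pool.Agent.W5h6.Additive
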